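import Pool.Agent.X312.CV.Main

/-!
# A gap law for the coniveau filtration on real Deligne cohomology

Fix an integer `w < 0` and let `Y` be **any** smooth projective variety over `ℂ`. For a smooth
projective variety `Z` let

`T(Z) = ⊕_j H_D^(2 j + w)(Y × Z, ℝ(j))`, and let `N(Z) = ⊕_j N^(j + w) H_D^(2 j + w)(Y × Z, ℝ(j))`

be the subspace of the classes with support in codimension `i - j`, `i = 2 j + w`. The conjecture
Q1 says that `N(Z) = T(Z)`.

Let `X` be a smooth projective variety over `ℂ` such that homological and numerical equivalence
agree on its powers: for example **any product of curves, surfaces and abelian varieties**. Let `M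
= (X ^ m, e)` be a direct summand of the motive of `X ^ m` modulo homological equivalence (with
real coefficients) which is irreducible, and let `D = dim H(M)` be its rank. Let `ρ(Z)` be the
dimension of the space of the algebraic classes of all degrees on `Z` and `b` the sum of the Betti
numbers of `X`.

**Either all real Deligne classes on** `Y ⊗ M` **with** `i - 2 j = w` **have support in
codimension** `i - j`, **or for all** `n ≥ 1` **at least**

`(D - 4 (m + 3) b ^ (m + 5) log (n + 1) / n) ρ(X ^ n)`

**real Deligne classes on** `Y × X ^ n` **are linearly independent modulo the classes with support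
in codimension** `i - j`. So one class on one variety `Y × X ^ m` which is not supported in
codimension `i - j` gives a very large number of such classes on all varieties `Y × X ^ n`, `n`
large, of both parities. For `w = -1` these are real `(j - 1, j - 1)`-classes which are not given
by currents `∑ log |f|` as in the problem.

Algebraic cycles act on `T` through their cohomology classes: `H_D^(2 c)(-, ℝ(c))` is the space of
the real `(c, c)`-classes, as `H^(2 c - 1)(-, ℂ)` is the sum of `F ^ c` and of `H^(2 c - 1)(-,
ℝ(c))`. By the moving lemma a correspondence of degree `r` can be moved to meet a given closed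
subset properly; so it maps the classes of degree `j` with support in codimension `c` to classes
of degree `j + r` with support in codimension `c + r`, and it respects `N`.

The proof. Let `P = X ^ m` and let `z = e z ≠ 0` be an element of `T(P) / N(P)`. If a
correspondence `x` has `x z = 0` then `e x e` is not invertible on `M`, so it is nilpotent, as `M`
is irreducible, and the trace of `e x` vanishes; therefore `dim T(Z) / N(Z)` is at least the rank
of the trace form `(u, v) ↦ tr (e v u)` on the correspondences between `P` and `Z`. For `Z = X ^
n` this rank is at least `(D - ε) ρ(X ^ n)`, by the log-convexity of the sequence of the numbers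
`ρ(X ^ (2 l))`, by tensor powers, and by the symmetric group, which excludes small growth. For the
other parity `M` is cut out of `X ^ (m + 1)`.
-/

set_option autoImplicit false

open CategoryTheory AlgebraicGeometry

universe u v w

namespace Pool.Agent.Results.MP_2dc9e5_ag.ConiveauGapLaw

open Pool.Agent.H914 VarClass Obj WeilCohomology
open Pool.Agent.X312.FK (composite IrreducibleIn IndepMod)
open Pool.Agent.X312.FC (CorrData corrRank rankBound)
open Pool.Agent.X312.FM (Family Has IsRingFamily IsNondeg dimOn)
open Pool.Agent.X312.CV (SupportData)
open Pool.Agent.Y133.Half (pw)

variable {k : Type u} [Field k] {𝒱 : VarClass k} {ops : CycleOps 𝒱}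
  {W : WeilCohomology.{u, v} ops}

/-- The sum of the Betti numbers of `X`. -/
noncomputable def totalBetti (W : WeilCohomology.{u, v} ops) (X : 𝒱.Obj) : ℕ :=
  Module.finrank W.K (W.H X)

/-- **The gap law for coniveau.** In the intended use `C Z` is the space of the algebraic classes on `Z`
with real coefficients, `T.M Z` is the direct sum of the real Deligne cohomology groups
`H_D ^ (2 j + w)(Y × Z, ℝ(j))`, `S.N Z j c` is the space of the classes in the summand with index `j`
which have support in codimension at least `c`, `S.degree Z Z' r` is the space of the correspondences of
degree `r`, and `e` is the projector of the motive `M`. Then `S.supported w Z` is the space of the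
classes which Q1 predicts to be everything. Here `corrRank e` is the rank of the motive, `dimOn C Z` is
the dimension of `C Z`, and `pw X m` is the product of `m + 1` copies of `X`. -/
theorem result (C : Family W) (hC : IsRingFamily C) (T : CorrData W) (hT : T.IsFunctor C)
    (S : SupportData T) (hS : S.IsCompatible C) (w : ℤ) (X : 𝒱.Obj)
    (hX : ∀ n, IsNondeg C (pw X n)) (m : ℕ) (e : W.H ((pw X m).prod (pw X m)))
    (he : Has C e) (hee : composite W e e = e) (hirr : IrreducibleIn (Has C) e) :
    (∀ x : T.M (pw X m), T.act e x ∈ S.supported w (pw X m)) ∨
    ∀ n : ℕ, IndepMod (Set.univ : Set (T.M (pw X n))) (S.supported w (pw X n))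
      (rankBound (corrRank e) (totalBetti W X) (dimOn C (pw X n)) m n) :=
  Pool.Agent.X312.CV.coniveau_law hC hT S hS w X hX he hee hirr

end Pool.Agent.Results.MP_2dc9e5_ag.ConiveauGapLaw
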